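import Mathlib
import Pool.Agent.Lib.MP_d107a2_lc.Defs
import Pool.Agent.Lib.MP_302921_gt.Defs
import Pool.Agent.Lib.MP_d61ec6_gt.Defs
import Pool.Agent.Lib.MP_d61ec6_gt.PIDc
import Pool.Agent.Lib.MP_d61ec6_gt.DiamondHalf
import Pool.Agent.Lib.RM48.Dia.Main

/-!
# Monolithic compacta with `p(C_p(X)) = ω`: a model of `ZFC` where the answer is no

The definitions for models of set theory are in `Pool.Agent.Lib.RM48.Dia.Defs` (`◇` in a model),
`Pool.Agent.Lib.RM48.Defs` (`ZFC`), `Pool.Agent.Lib.SymZF.ZF` (`ZF`) and
`Pool.Agent.Lib.SymZF.IntDefs` (ordered pairs, `ω`); the topological ones are in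
`Pool.Agent.Lib.MP_d61ec6_gt.Defs`.

For the opposite answer only the P-ideal dichotomy for sets of cardinality at most the continuum is
used (`PIDc`). It follows from `CH` and the P-ideal dichotomy for `ω₁`, and this pair of statements
was shown to be consistent relative to `ZFC` alone, without large cardinals, by Abraham and
Todorcevic (Fund. Math. 152, 1997).
-/

set_option autoImplicit false

namespace Pool.Agent.Results.MP_d61ec6_gt.IndependenceModel

open Pool.Agent.Lib.SymZF Pool.Agent.Lib.RM48
open Pool.Agent.Lib.MP_d107a2_lc Pool.Agent.Lib.MP_302921_gt Pool.Agent.Lib.MP_d61ec6_gt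

/-- The P-ideal dichotomy for sets `S` of cardinality at most the continuum: for every P-ideal `I`
of countable subsets of `S`, either some uncountable `T ⊆ S` has all its countable subsets in `I`,
or `S` is the union of countably many sets `P n` such that no infinite subset of `P n` is
in `I`. -/
def PIDContinuum : Prop :=
  ∀ (S : Type), Cardinal.mk S ≤ Cardinal.continuum → ∀ (I : Set (Set S)), IsPIdeal I →
    (∃ T : Set S, ¬ T.Countable ∧ ∀ A ⊆ T, A.Countable → A ∈ I) ∨
    (∃ P : ℕ → Set S, (⋃ n, P n) = Set.univ ∧ ∀ n, ∀ A ⊆ P n, A.Infinite → A ∉ I)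

/-- (1) There is a countable well-founded model `(M, E)` of `ZFC` in which Jensen's `◇` holds.
(2) Under `◇` there is a monolithic compact space `X` with `p(C_p(X)) = ω` which is not metrizable.
(3) Under the P-ideal dichotomy for sets of cardinality at most the continuum every monolithic
compact space `X` with `p(C_p(X)) = ω` is metrizable. -/
theorem result :
    (∃ (M : Type) (E : M → M → Prop), Countable M ∧ WellFounded E ∧ IsZFC E ∧ DiamondIn E) ∧
    (Diamond → ∃ (X : Type) (_ : TopologicalSpace X), CompactSpace X ∧ T2Space X ∧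
      Monolithic X ∧ CpPointFiniteCountable X ∧ ¬ TopologicalSpace.MetrizableSpace X) ∧
    (PIDContinuum → ∀ (X : Type) [TopologicalSpace X] [CompactSpace X] [T2Space X],
      Monolithic X → CpPointFiniteCountable X → TopologicalSpace.MetrizableSpace X) := by
  refine ⟨?_, diamond_example, fun h _ _ _ _ hm hp => pidc_metrizable h hm hp⟩
  obtain ⟨M, E, h1, h2, _, h4, h5⟩ := exists_diamond_model
  exact ⟨M, E, h1, h2, h4, h5⟩

end Pool.Agent.Results.MP_d61ec6_gt.IndependenceModel
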